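import Mathlib
import Pool.Agent.H60.Bose

namespace Pool.Agent.Results.MP_50e481_nt.BoseFalse

open Polynomial Pool.Agent.H60.Bose

def red : List ℕ := [1, 0, 0, 0, 0, 2]

def S : List ℕ := [11, 33, 70, 99, 125, 163, 210, 266, 297, 375, 397, 434, 463, 489, 527, 574, 630, 661]

theorem hS1 : ∀ b ∈ S, ∃ c ∈ S, pw 3 red c = add1 3 (pw 3 red b) := by decide +kernel
theorem hS2 : ∀ b ∈ S, (b + 364) % 728 ∈ S ∧ (b * 3) % 728 ∈ S := by decide +kernel
theorem f1 : pw 3 red 729 = pw 3 red 1 ∧ pw 3 red 728 = pw 3 red 0 ∧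
    pw 3 red 364 = add1 3 (pw 3 red 0) ∧ pw 3 red 104 = add1 3 (pw 3 red 150) ∧
    pw 3 red 56 = add1 3 (pw 3 red 336) ∧ pw 3 red 661 = add1 3 (pw 3 red 11) ∧
    pw 3 red 630 = add1 3 (pw 3 red 661) ∧ pw 3 red 473 = add1 3 (pw 3 red 31) ∧
    pw 3 red 462 = add1 3 (pw 3 red 473) := by decide +kernel

theorem z3 : ∀ v : ZMod 3, v = 0 ∨ v = 1 ∨ v = 1 + 1 := by decide

theorem exists_theta : ∃ θ : GaloisField 3 6, θ ^ red.length = ev θ red := by
  set f : (ZMod 3)[X] := X ^ 6 - (1 + 2 * X ^ 5) with hf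
  have hdeg : f.degree = 6 := by rw [hf]; compute_degree!
  have h3 : ((3 : ℕ) : AdjoinRoot f) = 0 := by
    rw [← map_natCast (AdjoinRoot.of f), show ((3 : ℕ) : ZMod 3) = 0 from rfl, map_zero]
  have hx : (AdjoinRoot.root f) ^ red.length = ev (AdjoinRoot.root f) red := by
    have : AdjoinRoot.mk f (X ^ 6 - (1 + 2 * X ^ 5)) = 0 := AdjoinRoot.mk_self
    simp only [map_sub, map_add, map_mul, map_pow, map_one, AdjoinRoot.mk_X, map_ofNat] at this
    simp only [red, ev, List.length_cons, List.length_nil]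
    push_cast
    linear_combination this
  obtain ⟨θ, hθ⟩ := exists_root 3 6 (by norm_num) f (by rw [hdeg]; decide) (by
    have e1 := (ev_pw _ h3 red (by decide) hx 729).1
    have e2 := (ev_pw _ h3 red (by decide) hx 1).1
    rw [f1.1, e2, pow_one] at e1
    exact e1.symm)
  refine ⟨θ, ?_⟩
  simp only [hf, map_sub, map_add, map_mul, map_pow, map_one, aeval_X, map_ofNat] at hθ
  simp only [red, ev, List.length_cons, List.length_nil]
  push_cast
  linear_combination hθ

theorem result : ∃ (θ : GaloisField 3 6) (b e : ℕ), orderOf θ = 3 ^ 6 - 1 ∧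
    Adm (ZMod 3) θ 6 b ∧ Adm (ZMod 3) θ 6 e ∧
    AffEq (3 ^ 6 - 1) (BoseSet (ZMod 3) θ (3 ^ 6 - 1) b) (BoseSet (ZMod 3) θ (3 ^ 6 - 1) e) ∧
    ¬ Relation.EqvGen (RelB (ZMod 3) θ 3 3 6) b e := by
  obtain ⟨θ, hx⟩ := exists_theta
  have h3 : ((3 : ℕ) : GaloisField 3 6) = 0 := CharP.cast_eq_zero _ 3
  have h3' : (3 : GaloisField 3 6) = 0 := by exact_mod_cast h3
  have Z := fun {b c : ℕ} => zech θ h3 red (by decide) hx (b := b) (c := c)
  obtain ⟨-, g1, g2, g3, g4, g5, g6, g7, g8⟩ := f1
  have h728 : θ ^ 728 = 1 := by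
    rw [← (ev_pw _ h3 red (by decide) hx 728).1, g1, (ev_pw _ h3 red (by decide) hx 0).1, pow_zero]
  have h0 : θ ≠ 0 := by
    rintro rfl
    norm_num at h728
  have h364 : θ ^ 364 = -1 := by rw [Z g2]; linear_combination h3'
  have ho : orderOf θ = 728 := by
    apply orderOf_eq_of_pow_and_pow_div_prime (by norm_num) h728
    intro p hp hd h
    have hd' : p ∣ 2 ^ 3 * 7 * 13 := hd
    rcases (Nat.Prime.dvd_mul hp).1 hd' with h1 | h1
    · rcases (Nat.Prime.dvd_mul hp).1 h1 with h1 | h1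
      · obtain rfl := (Nat.prime_dvd_prime_iff_eq hp Nat.prime_two).1 (hp.dvd_of_dvd_pow h1)
        have := Z g2
        norm_num at h
        rw [h] at this
        simp at this
      · obtain rfl := (Nat.prime_dvd_prime_iff_eq hp (by norm_num)).1 h1
        have := Z g3
        norm_num at h
        rw [h] at this
        simp [h0] at this
    · obtain rfl := (Nat.prime_dvd_prime_iff_eq hp (by norm_num)).1 h1
      have := Z g4
      norm_num at h
      rw [h] at this
      simp [h0] at this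
  have hinj : ∀ a c : ℕ, a < 728 → c < 728 → θ ^ a = θ ^ c → a = c := fun a c ha hc h =>
    pow_injOn_Iio_orderOf (by rw [ho]; exact ha) (by rw [ho]; exact hc) h
  have hmod : ∀ a : ℕ, θ ^ (a % 728) = θ ^ a := fun a => by rw [← ho]; exact pow_mod_orderOf θ a
  have hset : ∀ b c d : ℕ, b < 728 → c < 728 → d < 728 → θ ^ c = θ ^ b + 1 → θ ^ d = θ ^ c + 1 →
      ∀ a : ZMod 728, a ∈ BoseSet (ZMod 3) θ 728 b ↔ (a.val = b ∨ a.val = c ∨ a.val = d) := by
    intro b c d hb hc hd h1 h2 a
    have ha := ZMod.val_lt a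
    constructor
    · rintro ⟨v, hv⟩
      rcases z3 v with rfl | rfl | rfl
      · left; apply hinj _ _ ha hb; rw [hv, map_zero, add_zero]
      · right; left; apply hinj _ _ ha hc; rw [hv, h1, map_one]
      · right; right; apply hinj _ _ ha hd
        rw [hv, h2, h1, map_add, map_one, add_assoc]
    · rintro (h | h | h) <;> rw [BoseSet, Set.mem_ofPred_eq, h]
      · exact ⟨0, by simp⟩
      · exact ⟨1, by simp [h1]⟩
      · exact ⟨1 + 1, by rw [h2, h1, map_add, map_one, add_assoc]⟩
  refine ⟨θ, 11, 31, ho, adm_of 3 6 (by norm_num) θ ho 11 331 ?_,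
    adm_of 3 6 (by norm_num) θ ho 31 47 ?_, ?_, ?_⟩
  · rw [← pow_mul, ← hmod]; norm_num
  · rw [← pow_mul, ← hmod]; norm_num
  · refine ⟨517, 168, by norm_num, ?_⟩
    show BoseSet (ZMod 3) θ 728 31 =
      (fun a : ZMod 728 => ((517 : ℕ) : ZMod 728) * a + 168) '' BoseSet (ZMod 3) θ 728 11
    have e1 : BoseSet (ZMod 3) θ 728 11 = {11, 661, 630} := by
      ext a
      rw [hset 11 661 630 (by norm_num) (by norm_num) (by norm_num) (Z g5) (Z g6)]
      simp only [Set.mem_insert_iff, Set.mem_singleton_iff, ← ZMod.val_injective 728 |>.eq_iff]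
      rfl
    have e2 : BoseSet (ZMod 3) θ 728 31 = {31, 473, 462} := by
      ext a
      rw [hset 31 473 462 (by norm_num) (by norm_num) (by norm_num) (Z g7) (Z g8)]
      simp only [Set.mem_insert_iff, Set.mem_singleton_iff, ← ZMod.val_injective 728 |>.eq_iff]
      rfl
    rw [e1, e2, Set.image_insert_eq, Set.image_insert_eq, Set.image_singleton]
    rfl
  · set T : GaloisField 3 6 → Prop := fun y => ∃ b ∈ S, y = θ ^ b with hT
    have t1 : ∀ y, T y → T (y + 1) := by
      rintro y ⟨b, hb, rfl⟩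
      obtain ⟨c, hc, h⟩ := hS1 b hb
      exact ⟨c, hc, (Z h).symm⟩
    have t2 : ∀ y, T y → T (-y) := by
      rintro y ⟨b, hb, rfl⟩
      exact ⟨_, (hS2 b hb).1, by rw [hmod, pow_add, h364]; ring⟩
    have t3 : ∀ y, T y → T (y ^ 3) := by
      rintro y ⟨b, hb, rfl⟩
      exact ⟨_, (hS2 b hb).2, by rw [hmod, pow_mul]⟩
    have t4 : ∀ (v : ZMod 3) y, T y → T (y + algebraMap (ZMod 3) (GaloisField 3 6) v) := by
      intro v y hy
      rcases z3 v with rfl | rfl | rfl
      · rwa [map_zero, add_zero]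
      · rw [map_one]; exact t1 y hy
      · rw [map_add, map_one, ← add_assoc]; exact t1 _ (t1 y hy)
    have t5 : ∀ k b : ℕ, T (θ ^ (b + 364 * k)) ↔ T (θ ^ b) := by
      intro k b
      rw [pow_add, pow_mul, h364]
      rcases neg_one_pow_eq_or (GaloisField 3 6) k with h | h <;> rw [h]
      · rw [mul_one]
      · rw [mul_neg_one]
        exact ⟨fun h => by simpa using t2 _ h, t2 _⟩
    have hK : ∀ y : GaloisField 3 6, y ^ 3 ^ 6 = y := by
      intro y
      have : Fintype (GaloisField 3 6) := Fintype.ofFinite _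
      have := FiniteField.pow_card y
      rwa [← Nat.card_eq_fintype_card, GaloisField.card 3 6 (by norm_num)] at this
    have key : ∀ b e, Relation.EqvGen (RelB (ZMod 3) θ 3 3 6) b e → (T (θ ^ b) ↔ T (θ ^ e)) := by
      intro b e h
      induction h with
      | rel b e h =>
        obtain ⟨-, -, h | ⟨v, h⟩ | ⟨i, h⟩⟩ := h
        · have h' : b % 364 = e % 364 := h
          rw [← Nat.mod_add_div b 364, ← Nat.mod_add_div e 364, t5, t5, h']
        · constructor
          · intro hb
            have := t4 (-v) _ hb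
            rw [map_neg, ← h] at this
            simpa using this
          · intro he
            have := t4 v _ he
            rw [← h] at this
            simpa using this
        · have h' : b % 728 = (3 ^ i * e) % 728 := h
          rw [← hmod, h', hmod, mul_comm, pow_mul]
          exact frob_back T 3 6 (by norm_num) hK t3 i _
      | refl => rfl
      | symm _ _ _ ih => exact ih.symm
      | trans _ _ _ _ _ ih1 ih2 => exact ih1.trans ih2
    intro h
    obtain ⟨c, hc, h2⟩ := (key _ _ h).1 ⟨11, by decide, rfl⟩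
    have hlt : ∀ c ∈ S, c < 728 ∧ c ≠ 31 := by decide
    exact (hlt c hc).2 (hinj _ _ (by norm_num) (hlt c hc).1 h2).symm

end Pool.Agent.Results.MP_50e481_nt.BoseFalse
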