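import Mathlib
import Pool.Agent.H60.Bose

namespace Pool.Agent.Results.MP_50e481_nt.SingerFalse

open Polynomial Pool.Agent.H60.Bose

def red : List ℕ := [1, 0, 0, 0, 0, 0, 0, 1, 0, 0]

def S : List ℕ := [31, 37, 62, 74, 124, 148, 161, 248, 265, 296, 322, 379, 431, 493, 496, 527, 530,
  592, 644, 701, 727, 758, 775, 862, 875, 899, 949, 961, 986, 992]

theorem hS1 : ∀ b ∈ S, ∃ c ∈ S, pw 2 red c = add1 2 (pw 2 red b) := by decide +kernel
theorem hS2 : ∀ b ∈ S, 1023 - b ∈ S ∧ (b * 2) % 1023 ∈ S ∧ b < 1023 ∧ b ≠ 85 := by decide +kernel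
theorem f1 : pw 2 red 1024 = pw 2 red 1 ∧ pw 2 red 1023 = pw 2 red 0 ∧
    pw 2 red 341 = add1 2 (pw 2 red 682) ∧ pw 2 red 93 = add1 2 (pw 2 red 459) ∧
    pw 2 red 33 = add1 2 (pw 2 red 396) ∧ pw 2 red 31 = add1 2 (pw 2 red 296) ∧
    pw 2 red 674 = add1 2 (pw 2 red 85) := by decide +kernel

theorem z2 : ∀ v : ZMod 2, v = 0 ∨ v = 1 := by decide

theorem exists_theta : ∃ θ : GaloisField 2 10, θ ^ red.length = ev θ red := by
  set f : (ZMod 2)[X] := X ^ 10 - (1 + X ^ 7) with hf
  have hdeg : f.degree = 10 := by rw [hf]; compute_degree!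
  have h3 : ((2 : ℕ) : AdjoinRoot f) = 0 := by
    rw [← map_natCast (AdjoinRoot.of f), show ((2 : ℕ) : ZMod 2) = 0 from rfl, map_zero]
  have hx : (AdjoinRoot.root f) ^ red.length = ev (AdjoinRoot.root f) red := by
    have : AdjoinRoot.mk f (X ^ 10 - (1 + X ^ 7)) = 0 := AdjoinRoot.mk_self
    simp only [map_sub, map_add, map_pow, map_one, AdjoinRoot.mk_X] at this
    simp only [red, ev, List.length_cons, List.length_nil]
    push_cast
    linear_combination this
  obtain ⟨θ, hθ⟩ := exists_root 2 10 (by norm_num) f (by rw [hdeg]; decide) (by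
    have e1 := (ev_pw _ h3 red (by decide) hx 1024).1
    have e2 := (ev_pw _ h3 red (by decide) hx 1).1
    rw [f1.1, e2, pow_one] at e1
    exact e1.symm)
  refine ⟨θ, ?_⟩
  simp only [hf, map_sub, map_add, map_pow, map_one, aeval_X] at hθ
  simp only [red, ev, List.length_cons, List.length_nil]
  push_cast
  linear_combination hθ

theorem result : ∃ (θ : GaloisField 2 (9 + 1)) (b e : ℕ), orderOf θ = 2 ^ (9 + 1) - 1 ∧
    Adm (ZMod 2) θ (9 + 1) b ∧ Adm (ZMod 2) θ (9 + 1) e ∧
    AffEq ((2 ^ (9 + 1) - 1) / (2 - 1)) (SingerSet (ZMod 2) θ ((2 ^ (9 + 1) - 1) / (2 - 1)) b)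
      (SingerSet (ZMod 2) θ ((2 ^ (9 + 1) - 1) / (2 - 1)) e) ∧
    ¬ Relation.EqvGen (RelS (ZMod 2) θ 2 2 9) b e := by
  obtain ⟨θ, hx⟩ := exists_theta
  have h3 : ((2 : ℕ) : GaloisField 2 10) = 0 := CharP.cast_eq_zero _ 2
  have h3' : (2 : GaloisField 2 10) = 0 := by exact_mod_cast h3
  have Z := fun {b c : ℕ} => zech θ h3 red (by decide) hx (b := b) (c := c)
  obtain ⟨-, g1, g2, g3, g4, g5, g6⟩ := f1
  have hN : θ ^ 1023 = 1 := by
    rw [← (ev_pw _ h3 red (by decide) hx 1023).1, g1, (ev_pw _ h3 red (by decide) hx 0).1, pow_zero]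
  have h0 : θ ≠ 0 := by
    rintro rfl
    norm_num at hN
  have ho : orderOf θ = 1023 := by
    apply orderOf_eq_of_pow_and_pow_div_prime (by norm_num) hN
    intro p hp hd h
    have hd' : p ∣ 3 * 11 * 31 := hd
    rcases (Nat.Prime.dvd_mul hp).1 hd' with h1 | h1
    · rcases (Nat.Prime.dvd_mul hp).1 h1 with h1 | h1
      · obtain rfl := (Nat.prime_dvd_prime_iff_eq hp (by norm_num)).1 h1
        have := Z g2
        norm_num at h
        rw [h] at this
        simp [h0] at this
      · obtain rfl := (Nat.prime_dvd_prime_iff_eq hp (by norm_num)).1 h1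
        have := Z g3
        norm_num at h
        rw [h] at this
        simp [h0] at this
    · obtain rfl := (Nat.prime_dvd_prime_iff_eq hp (by norm_num)).1 h1
      have := Z g4
      norm_num at h
      rw [h] at this
      simp [h0] at this
  have hinj : ∀ a c : ℕ, a < 1023 → c < 1023 → θ ^ a = θ ^ c → a = c := fun a c ha hc h =>
    pow_injOn_Iio_orderOf (by rw [ho]; exact ha) (by rw [ho]; exact hc) h
  have hmod : ∀ a : ℕ, θ ^ (a % 1023) = θ ^ a := fun a => by rw [← ho]; exact pow_mod_orderOf θ a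
  have hset : ∀ b c : ℕ, b < 1023 → c < 1023 → θ ^ c = θ ^ b + 1 →
      ∀ a : ZMod 1023, a ∈ SingerSet (ZMod 2) θ 1023 b ↔ (a.val = 0 ∨ a.val = b ∨ a.val = c) := by
    intro b c hb hc h1 a
    have ha := ZMod.val_lt a
    constructor
    · rintro ⟨u, v, hv⟩
      rcases z2 u with rfl | rfl <;> rcases z2 v with rfl | rfl
      · rw [map_zero, zero_mul, add_zero] at hv
        exact absurd hv (pow_ne_zero _ h0)
      · left; apply hinj _ _ ha (by norm_num); rw [hv, map_zero, map_one, zero_mul, zero_add, pow_zero]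
      · right; left; apply hinj _ _ ha hb; rw [hv, map_zero, map_one, one_mul, add_zero]
      · right; right; apply hinj _ _ ha hc; rw [hv, h1, map_one, one_mul]
    · rintro (h | h | h) <;> rw [SingerSet, Set.mem_ofPred_eq, h]
      · exact ⟨0, 1, by rw [map_zero, map_one, zero_mul, zero_add, pow_zero]⟩
      · exact ⟨1, 0, by rw [map_zero, map_one, one_mul, add_zero]⟩
      · exact ⟨1, 1, by rw [h1, map_one, one_mul]⟩
  refine ⟨θ, 296, 85, ho, adm_of 2 10 (by norm_num) θ ho 296 197 ?_,
    adm_of 2 10 (by norm_num) θ ho 85 337 ?_, ?_, ?_⟩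
  · rw [← pow_mul, ← hmod]; norm_num
  · rw [← pow_mul, ← hmod]; norm_num
  · refine ⟨212, 674, by norm_num, ?_⟩
    show SingerSet (ZMod 2) θ 1023 85 =
      (fun a : ZMod 1023 => ((212 : ℕ) : ZMod 1023) * a + 674) '' SingerSet (ZMod 2) θ 1023 296
    have e1 : SingerSet (ZMod 2) θ 1023 296 = {296, 31, 0} := by
      have e0 : SingerSet (ZMod 2) θ 1023 296 = {0, 296, 31} := by
        ext a
        rw [hset 296 31 (by norm_num) (by norm_num) (Z g5)]
        simp only [Set.mem_insert_iff, Set.mem_singleton_iff, ← ZMod.val_injective 1023 |>.eq_iff]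
        rfl
      rw [e0, Set.insert_comm, Set.pair_comm (0 : ZMod 1023)]
    have e2 : SingerSet (ZMod 2) θ 1023 85 = {0, 85, 674} := by
      ext a
      rw [hset 85 674 (by norm_num) (by norm_num) (Z g6)]
      simp only [Set.mem_insert_iff, Set.mem_singleton_iff, ← ZMod.val_injective 1023 |>.eq_iff]
      rfl
    rw [e1, e2, Set.image_insert_eq, Set.image_insert_eq, Set.image_singleton]
    rfl
  · set T : GaloisField 2 10 → Prop := fun y => ∃ b ∈ S, y = θ ^ b with hT
    have t1 : ∀ y, T y → T (y + 1) := by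
      rintro y ⟨b, hb, rfl⟩
      obtain ⟨c, hc, h⟩ := hS1 b hb
      exact ⟨c, hc, (Z h).symm⟩
    have t2 : ∀ y z, y * z = 1 → T y → T z := by
      rintro y z hyz ⟨b, hb, rfl⟩
      refine ⟨_, (hS2 b hb).1, ?_⟩
      apply mul_left_cancel₀ (pow_ne_zero b h0)
      rw [hyz, ← pow_add, Nat.add_sub_cancel' (hS2 b hb).2.2.1.le, hN]
    have t3 : ∀ y, T y → T (y ^ 2) := by
      rintro y ⟨b, hb, rfl⟩
      exact ⟨_, (hS2 b hb).2.1, by rw [hmod, pow_mul]⟩
    have t4 : ∀ (v : ZMod 2) y, T (y + algebraMap (ZMod 2) (GaloisField 2 10) v) ↔ T y := by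
      intro v y
      rcases z2 v with rfl | rfl
      · rw [map_zero, add_zero]
      · rw [map_one]
        refine ⟨fun h => ?_, t1 y⟩
        have := t1 _ h
        rwa [show y + 1 + 1 = y by linear_combination h3'] at this
    have hK : ∀ y : GaloisField 2 10, y ^ 2 ^ 10 = y := by
      intro y
      have : Fintype (GaloisField 2 10) := Fintype.ofFinite _
      have := FiniteField.pow_card y
      rwa [← Nat.card_eq_fintype_card, GaloisField.card 2 10 (by norm_num)] at this
    have hnot : ∀ b (v : ZMod 2), Adm (ZMod 2) θ (9 + 1) b →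
        θ ^ b ≠ algebraMap (ZMod 2) (GaloisField 2 10) v := by
      intro b v hb h
      unfold Adm at hb
      rw [h, minpoly.eq_X_sub_C, natDegree_X_sub_C] at hb
      omega
    have hvv : ∀ v : ZMod 2, algebraMap (ZMod 2) (GaloisField 2 10) v +
        algebraMap (ZMod 2) (GaloisField 2 10) v = 0 := fun v => by
      linear_combination algebraMap (ZMod 2) (GaloisField 2 10) v * h3'
    have key : ∀ b e, Relation.EqvGen (RelS (ZMod 2) θ 2 2 9) b e → (T (θ ^ b) ↔ T (θ ^ e)) := by
      intro b e h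
      induction h with
      | rel b e h =>
        obtain ⟨hb, he, h | ⟨i, h⟩ | ⟨v, h⟩ | ⟨r, t, w, c, hrt, h⟩⟩ := h
        · have h' : b % 1023 = e % 1023 := h
          rw [← hmod, h', hmod]
        · have h' : b % 1023 = (2 ^ i * e) % 1023 := h
          rw [← hmod, h', hmod, mul_comm, pow_mul]
          exact frob_back T 2 10 (by norm_num) hK t3 i _
        · rw [← t4 v (θ ^ e), ← h]; simp
        · rcases z2 t with rfl | rfl
          · have hr : r = 1 := by
              rcases z2 r with rfl | rfl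
              · exact absurd rfl hrt
              · rfl
            subst hr
            rw [map_zero, map_one, zero_mul, add_zero, one_mul] at h
            rcases z2 w with rfl | rfl
            · rw [map_zero, zero_mul, add_zero] at h
              exact absurd h (hnot b c hb)
            · rw [map_one, one_mul] at h
              rw [← t4 c (θ ^ e), ← h, show θ ^ e + (θ ^ b + θ ^ e) = θ ^ b by
                linear_combination θ ^ e * h3']
          · rw [map_one, one_mul, pow_add] at h
            have h2 : (θ ^ b + algebraMap (ZMod 2) (GaloisField 2 10) w) *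
                (θ ^ e + algebraMap (ZMod 2) (GaloisField 2 10) r) =
                algebraMap (ZMod 2) (GaloisField 2 10) (c + w * r) := by
              rw [map_add, map_mul]; linear_combination h
            rcases z2 (c + w * r) with h4 | h4
            · rw [h4, map_zero] at h2
              rcases mul_eq_zero.1 h2 with h5 | h5
              · exact absurd (by linear_combination h5 - hvv w) (hnot b w hb)
              · exact absurd (by linear_combination h5 - hvv r) (hnot e r he)
            · rw [h4, map_one] at h2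
              rw [← t4 w, ← t4 r (θ ^ e)]
              exact ⟨t2 _ _ h2, t2 _ _ (by rw [mul_comm]; exact h2)⟩
      | refl => rfl
      | symm _ _ _ ih => exact ih.symm
      | trans _ _ _ _ _ ih1 ih2 => exact ih1.trans ih2
    intro h
    obtain ⟨c, hc, h2⟩ := (key _ _ h).1 ⟨296, by decide, rfl⟩
    exact (hS2 c hc).2.2.2 (hinj _ _ (by norm_num) (hS2 c hc).2.2.1 h2).symm

end Pool.Agent.Results.MP_50e481_nt.SingerFalse
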